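import Pool.Agent.TH446.HN.Pair
import Pool.Agent.TH446.HN.Sharp2
import Pool.Agent.TH446.HN.Crit2

/-!
MP_b47bfb_co: how many non-neighbours may the vertices of a graph on `n` vertices have so that it
must contain a `K_{⌈n/2⌉}` minor?  The answer is `n ^ (3 / 4)` up to a factor `C (log n) ^ (1 / 4)`.
Consequences for counterexamples to Hadwiger's conjecture and to its off-by-one form: every
counterexample in which each vertex has at most `D` non-neighbours contains one with fewer than
`37 D ^ (4 / 3)`, respectively `148 D ^ (4 / 3)`, vertices.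
-/

set_option autoImplicit false

namespace Pool.Agent.Results.MP_b47bfb_co.HalfMinorThreshold

/-- `K_k` is a minor of `G`: there are `k` pairwise disjoint vertex sets, each inducing a connected
subgraph, any two of them joined by an edge of `G`. -/
def HasCliqueMinor {V : Type} (G : SimpleGraph V) (k : ℕ) : Prop :=
  ∃ f : Fin k → Set V,
    (∀ i, (G.induce (f i)).Connected) ∧
    (∀ i j, i ≠ j → Disjoint (f i) (f j)) ∧
    (∀ i j, i ≠ j → ∃ u ∈ f i, ∃ v ∈ f j, G.Adj u v)

/-- The set of non-neighbours of `x` (without `x` itself). -/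
def NonNbr {V : Type} (G : SimpleGraph V) (x : V) : Set V := {y | x ≠ y ∧ ¬ G.Adj x y}

/-- Hadwiger's conjecture holds for `G`: if `G` is not `k`-colourable then `K_{k+1}` is a minor
of `G`. -/
def Hadwiger {V : Type} (G : SimpleGraph V) : Prop :=
  ∀ k : ℕ, ¬ G.Colorable k → HasCliqueMinor G (k + 1)

/-- Q1 holds for `G`: if `G` is not `k`-colourable then `K_k` is a minor of `G`. -/
def OffByOne {V : Type} (G : SimpleGraph V) : Prop :=
  ∀ k : ℕ, ¬ G.Colorable k → HasCliqueMinor G k

/-- (1) Every graph on `n` vertices in which every vertex has at most `D` non-neighbours,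
`50000 * D ^ 4 ≤ n ^ 3`, has a `K_{⌈n/2⌉}` minor.
(2) For every `n ≥ 3` there is a graph on `n` vertices without a `K_{⌈n/2⌉}` minor in which every
vertex has at most `31 n ^ (3 / 4) (log n) ^ (1 / 4)` non-neighbours.
(3) If every vertex of `G` has at most `D` non-neighbours and Hadwiger's conjecture fails for `G`,
then it fails for an induced subgraph on `u` vertices, where `u ^ 3 < 50000 * D ^ 4`.
(4) If every vertex of `G` has at most `D` non-neighbours and Q1 fails for `G`, then it fails for
an induced subgraph on `u` vertices, where `u ^ 3 < 3200000 * D ^ 4`.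
(5) Let `G` be vertex-critical: not `k`-colourable, but `k`-colourable after the removal of any
vertex.  If every vertex has at most `D` non-neighbours and `m` vertices have at least one, where
`1200 ^ 3 * D ^ 4 ≤ m ^ 3`, then `K_{k+1}` is a minor of `G`.

(3)-(5) follow from (1), from the pairing theorem behind it, and from Gallai's theorem on critical
graphs. -/
theorem result :
    (∀ (V : Type) [Fintype V] (G : SimpleGraph V) (D : ℕ),
      (∀ x : V, (NonNbr G x).ncard ≤ D) → 50000 * D ^ 4 ≤ Fintype.card V ^ 3 →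
      HasCliqueMinor G ((Fintype.card V + 1) / 2)) ∧
    (∀ n : ℕ, 3 ≤ n → ∃ G : SimpleGraph (Fin n),
      (∀ x, ((NonNbr G x).ncard : ℝ) ≤
        31 * (n : ℝ) ^ ((3 : ℝ) / 4) * Real.log n ^ ((1 : ℝ) / 4)) ∧
      ¬ HasCliqueMinor G ((n + 1) / 2)) ∧
    (∀ (V : Type) [Fintype V] (G : SimpleGraph V) (D : ℕ),
      (∀ x : V, (NonNbr G x).ncard ≤ D) → ¬ Hadwiger G →
      ∃ U : Set V, ¬ Hadwiger (G.induce U) ∧ U.ncard ^ 3 < 50000 * D ^ 4) ∧
    (∀ (V : Type) [Fintype V] (G : SimpleGraph V) (D : ℕ),
      (∀ x : V, (NonNbr G x).ncard ≤ D) → ¬ OffByOne G →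
      ∃ U : Set V, ¬ OffByOne (G.induce U) ∧ U.ncard ^ 3 < 3200000 * D ^ 4) ∧
    (∀ (V : Type) [Fintype V] (G : SimpleGraph V) (D k : ℕ),
      (∀ x : V, (NonNbr G x).ncard ≤ D) →
      1200 ^ 3 * D ^ 4 ≤ {x : V | (NonNbr G x).Nonempty}.ncard ^ 3 →
      (∀ v : V, (G.induce {v}ᶜ).Colorable k) → ¬ G.Colorable k → HasCliqueMinor G (k + 1)) := by
  have hnd : ∀ (V : Type) (G : SimpleGraph V) (x : V),
      Pool.Agent.W292.RG.ndeg G x = (NonNbr G x).ncard := by
    intro V G x
    have : {y | Gᶜ.Adj x y} = NonNbr G x := by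
      ext y
      exact SimpleGraph.compl_adj G x y
    unfold Pool.Agent.W292.RG.ndeg
    rw [this]
  refine ⟨?_, ?_, ?_, ?_, ?_⟩
  · intro V _ G D hD hn
    exact Pool.Agent.TH446.HN.half34 V G D (fun x => by rw [hnd]; exact hD x) hn
  · intro n hn
    exact Pool.Agent.TH446.HN.Sharp.sharp n hn
  · intro V _ G D hD h
    exact Pool.Agent.TH446.HN.Crit.local_hadwiger G D (fun x => by rw [hnd]; exact hD x) h
  · intro V _ G D hD h
    exact Pool.Agent.TH446.HN.Crit.local_offbyone G D (fun x => by rw [hnd]; exact hD x) h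
  · intro V _ G D k hD hm hcol hk
    exact Pool.Agent.TH446.HN.Crit.crit34 G D (fun x => by rw [hnd]; exact hD x)
      (by norm_num at hm ⊢; exact hm) k hcol hk

end Pool.Agent.Results.MP_b47bfb_co.HalfMinorThreshold
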