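import Pool.Agent.TH481.DenseMinor9

/-!
MP_b47bfb_co: clique minors in graphs with few missing edges, and smallest counterexamples to
Hadwiger's conjecture and to its off-by-one form.
-/

set_option autoImplicit false

namespace Pool.Agent.Results.MP_b47bfb_co.MissingEdges

/-- `K_k` is a minor of `G`: there are `k` pairwise disjoint vertex sets, each inducing a connected
subgraph, any two of them joined by an edge of `G`. -/
def HasCliqueMinor {V : Type} (G : SimpleGraph V) (k : ℕ) : Prop :=
  ∃ f : Fin k → Set V,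
    (∀ i, (G.induce (f i)).Connected) ∧
    (∀ i j, i ≠ j → Disjoint (f i) (f j)) ∧
    (∀ i j, i ≠ j → ∃ u ∈ f i, ∃ v ∈ f j, G.Adj u v)

/-- The number of missing edges of `G`: the number of edges of the complement of `G`. -/
noncomputable def missing {V : Type} (G : SimpleGraph V) : ℕ := (Gᶜ.edgeSet).ncard

/-- Q1 holds for `G`: if `G` is not `j`-colourable then `K_j` is a minor of `G`. -/
def OffByOne {V : Type} (G : SimpleGraph V) : Prop :=
  ∀ j : ℕ, ¬ G.Colorable j → HasCliqueMinor G j

/-- Hadwiger's conjecture holds for `G`: if `G` is not `j`-colourable then `K_{j+1}` is a minor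
of `G`. -/
def Hadwiger {V : Type} (G : SimpleGraph V) : Prop :=
  ∀ j : ℕ, ¬ G.Colorable j → HasCliqueMinor G (j + 1)

/-- Here `n` is the number of vertices of `G` and `m` its number of missing edges.

(1) If `n ≥ 256` and `m ≤ n ^ (3 / 2) / 128`, then `G` has a `K_t` minor for every
`t ≤ n / 2 + n ^ 2 / (8 (8 m + n))`.
(2) Hence Hadwiger's conjecture holds for such `G` if `χ(G) ≤ n / 2 + n ^ 2 / (8 (8 m + n))`,
(3) in particular if the complement of `G` has a matching which misses at most
`n ^ 2 / (4 (8 m + n))` vertices.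
(4) If `G` is vertex-critical, its complement is connected and `m ≤ n ^ (3 / 2) / 80`, then
Hadwiger's conjecture holds for `G`.
(5) If Q1 fails for `G` but holds for all proper induced subgraphs of `G`, then
`m > n ^ (3 / 2) / 640`.
(6) If Hadwiger's conjecture fails for `G` but holds for all proper induced subgraphs of `G`, then
`m > n ^ (3 / 2) / 80`.
(7) For all `n, m ≥ 1` there is a graph with `n` vertices and at most `m` missing edges which has
a `K_t` minor only for `t ≤ n / 2 + n ^ 2 / (4 m) + 1 / 2`.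
(8) For every `n ≥ 3` there is a graph with `n` vertices and at most `3 n ^ (3 / 2)` missing edges
which has no `K_{⌈n / 2⌉}` minor.

So for `n ≤ m ≤ n ^ (3 / 2) / 128` the smallest Hadwiger number of a graph with `n` vertices and
`m` missing edges is `n / 2` plus a quantity of order `n ^ 2 / m`, and the range of `m` in (1)
cannot be extended beyond a constant factor. -/
theorem result :
    (∀ (V : Type) [Fintype V] (G : SimpleGraph V), 256 ≤ Fintype.card V →
      16384 * missing G ^ 2 ≤ Fintype.card V ^ 3 →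
      ∀ t : ℕ, (t : ℝ) ≤ (Fintype.card V : ℝ) / 2 +
        (Fintype.card V : ℝ) ^ 2 / (8 * (8 * missing G + Fintype.card V)) →
      HasCliqueMinor G t) ∧
    (∀ (V : Type) [Fintype V] (G : SimpleGraph V), 256 ≤ Fintype.card V →
      16384 * missing G ^ 2 ≤ Fintype.card V ^ 3 →
      ∀ q : ℕ, (q : ℝ) ≤ (Fintype.card V : ℝ) / 2 +
        (Fintype.card V : ℝ) ^ 2 / (8 * (8 * missing G + Fintype.card V)) →
      G.Colorable q → Hadwiger G) ∧
    (∀ (V : Type) [Fintype V] (G : SimpleGraph V), 256 ≤ Fintype.card V →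
      16384 * missing G ^ 2 ≤ Fintype.card V ^ 3 →
      ∀ M : Gᶜ.Subgraph, M.IsMatching → (Fintype.card V : ℝ) - M.verts.ncard ≤
        (Fintype.card V : ℝ) ^ 2 / (4 * (8 * missing G + Fintype.card V)) →
      Hadwiger G) ∧
    (∀ (V : Type) [Fintype V] (G : SimpleGraph V), Gᶜ.Connected →
      6400 * missing G ^ 2 ≤ Fintype.card V ^ 3 →
      ∀ k : ℕ, (∀ v : V, (G.induce {v}ᶜ).Colorable k) → ¬ G.Colorable k →
      HasCliqueMinor G (k + 1)) ∧
    (∀ (V : Type) [Fintype V] (G : SimpleGraph V), ¬ OffByOne G →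
      (∀ U : Set V, U ≠ Set.univ → OffByOne (G.induce U)) →
      Fintype.card V ^ 3 < 409600 * missing G ^ 2) ∧
    (∀ (V : Type) [Fintype V] (G : SimpleGraph V), ¬ Hadwiger G →
      (∀ U : Set V, U ≠ Set.univ → Hadwiger (G.induce U)) →
      Fintype.card V ^ 3 < 6400 * missing G ^ 2) ∧
    (∀ n m : ℕ, 1 ≤ n → 1 ≤ m → ∃ G : SimpleGraph (Fin n), missing G ≤ m ∧
      ∀ t : ℕ, HasCliqueMinor G t → (t : ℝ) ≤ (n : ℝ) / 2 + (n : ℝ) ^ 2 / (4 * m) + 1 / 2) ∧
    (∀ n : ℕ, 3 ≤ n → ∃ G : SimpleGraph (Fin n), missing G ^ 2 ≤ 9 * n ^ 3 ∧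
      ¬ HasCliqueMinor G ((n + 1) / 2)) := by
  refine ⟨?_, ?_, ?_, ?_, ?_, ?_, ?_, ?_⟩
  · intro V _ G hn hm t ht
    exact TH481.DM.final1 G hn hm t ht
  · intro V _ G hn hm q hq hcol k hk
    exact TH481.DM.final2 G hn hm q hq hcol k hk
  · intro V _ G hn hm M hM hv k hk
    exact TH481.DM.final3 G hn hm M hM hv k hk
  · intro V _ G hconn hm k hcol hk
    exact TH481.DM.final4 G hconn k hcol hk hm
  · intro V _ G hG hmin
    classical
    unfold OffByOne at hG
    push Not at hG
    obtain ⟨k, h1, h2⟩ := hG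
    have := TH481.DM.min_offbyone G Gᶜ (fun u v => by rw [SimpleGraph.compl_adj]) k h1 h2
      (fun U hU j hj => hmin U hU j hj)
    rw [← TH481.DM.ncard_edges Gᶜ] at this
    exact this
  · intro V _ G hG hmin
    classical
    unfold Hadwiger at hG
    push Not at hG
    obtain ⟨k, h1, h2⟩ := hG
    have := TH481.DM.min_hadwiger G Gᶜ (fun u v => by rw [SimpleGraph.compl_adj]) k h1 h2
      (fun U hU j hj => hmin U hU j hj)
    rw [← TH481.DM.ncard_edges Gᶜ] at this
    exact this
  · intro n m hn hm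
    exact TH481.DM.sharp1 n m hn hm
  · intro n hn
    exact TH481.DM.sharp2 n hn

end Pool.Agent.Results.MP_b47bfb_co.MissingEdges
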