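import Pool.Agent.TH446.HN.Fin

/-!
MP_b47bfb_co: Hadwiger's conjecture (the full clique minor `K_{k+1}` for graphs that are not
`k`-colourable) for dense graphs whose complement is nearly regular, in particular for all regular
graphs on `n` vertices in which every vertex has at most `(n / 400) ^ (3 / 4)` non-neighbours.
-/

set_option autoImplicit false

namespace Pool.Agent.Results.MP_b47bfb_co.RegularThreeQuarters

/-- `K_k` is a minor of `G`: there are `k` pairwise disjoint vertex sets, each inducing a connected
subgraph, any two of them joined by an edge of `G`. -/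
def HasCliqueMinor {V : Type} (G : SimpleGraph V) (k : ℕ) : Prop :=
  ∃ f : Fin k → Set V,
    (∀ i, (G.induce (f i)).Connected) ∧
    (∀ i j, i ≠ j → Disjoint (f i) (f j)) ∧
    (∀ i j, i ≠ j → ∃ u ∈ f i, ∃ v ∈ f j, G.Adj u v)

/-- The set of non-neighbours of `x` (without `x` itself). -/
def NonNbr {V : Type} (G : SimpleGraph V) (x : V) : Set V := {y | x ≠ y ∧ ¬ G.Adj x y}

/-- (1) Let `m` be the number of vertices of `G` which have at least one non-neighbour, and
suppose that each of them has at least `d` and at most `D` non-neighbours, where `1 ≤ d` and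
`400 ^ 3 * D ^ 7 ≤ d ^ 3 * m ^ 3`.  If `G` is not `k`-colourable then `K_{k+1}` is a minor of `G`.
(2) In particular this holds for every graph on `n` vertices in which every vertex has exactly
`D` non-neighbours, `400 ^ 3 * D ^ 4 ≤ n ^ 3`.

The proof colours `G` by a maximum matching of the complement `H` (Tutte-Berge). Outside the
Tutte-Berge barrier `A` one vertex is chosen from every odd component and the others are paired
so that no two pairs are completely joined in `H`; such a pairing is found by the lopsided local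
lemma for random perfect matchings. If there are too few vertices to pair, then `A` is large and
each of them is joined to three helpers from `A`. -/
theorem result :
    (∀ (V : Type) [Fintype V] (G : SimpleGraph V) (d D : ℕ), 1 ≤ d →
      (∀ x : V, (NonNbr G x).Nonempty → d ≤ (NonNbr G x).ncard ∧ (NonNbr G x).ncard ≤ D) →
      400 ^ 3 * D ^ 7 ≤ d ^ 3 * {x : V | (NonNbr G x).Nonempty}.ncard ^ 3 →
      ∀ k : ℕ, ¬ G.Colorable k → HasCliqueMinor G (k + 1)) ∧
    (∀ (V : Type) [Fintype V] (G : SimpleGraph V) (D : ℕ),
      (∀ x : V, (NonNbr G x).ncard = D) →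
      400 ^ 3 * D ^ 4 ≤ Fintype.card V ^ 3 →
      ∀ k : ℕ, ¬ G.Colorable k → HasCliqueMinor G (k + 1)) := by
  have hnd : ∀ (V : Type) (G : SimpleGraph V) (x : V),
      Pool.Agent.W292.RG.ndeg G x = (NonNbr G x).ncard := by
    intro V G x
    have : {y | Gᶜ.Adj x y} = NonNbr G x := by
      ext y
      exact SimpleGraph.compl_adj G x y
    unfold Pool.Agent.W292.RG.ndeg
    rw [this]
  have key : ∀ (V : Type) [Fintype V] (G : SimpleGraph V) (d D : ℕ), 1 ≤ d →
      (∀ x : V, (NonNbr G x).Nonempty → d ≤ (NonNbr G x).ncard ∧ (NonNbr G x).ncard ≤ D) →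
      400 ^ 3 * D ^ 7 ≤ d ^ 3 * {x : V | (NonNbr G x).Nonempty}.ncard ^ 3 →
      ∀ k : ℕ, ¬ G.Colorable k → HasCliqueMinor G (k + 1) := by
    intro V _ G d D hd hdeg hn k hk
    refine Pool.Agent.TH446.HN.had34 V G d D hd ?_ (by norm_num at hn ⊢; exact hn) k hk
    intro x hx
    rw [hnd]
    exact hdeg x hx
  refine ⟨key, ?_⟩
  intro V _ G D hD hn k hk
  rcases Nat.eq_zero_or_pos D with h0 | hpos
  · subst h0
    refine key V G 1 0 le_rfl ?_ (by simp) k hk
    rintro x ⟨y, hy⟩
    exfalso
    have h1 := hD x
    rw [Set.ncard_eq_zero (Set.toFinite _)] at h1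
    rw [h1] at hy
    exact hy
  · have hall : {x : V | (NonNbr G x).Nonempty} = Set.univ := by
      ext x
      simp only [Set.mem_univ, iff_true]
      show (NonNbr G x).Nonempty
      rw [← Set.ncard_pos (Set.toFinite _), hD x]
      exact hpos
    refine key V G D D hpos (fun x _ => by rw [hD x]; exact ⟨le_rfl, le_rfl⟩) ?_ k hk
    rw [hall, Set.ncard_univ, Nat.card_eq_fintype_card]
    calc 400 ^ 3 * D ^ 7 = D ^ 3 * (400 ^ 3 * D ^ 4) := by ring
      _ ≤ D ^ 3 * Fintype.card V ^ 3 := Nat.mul_le_mul_left _ hn

end Pool.Agent.Results.MP_b47bfb_co.RegularThreeQuarters
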