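import Mathlib
import Pool.Agent.TH351.HadFinalB

/-!
MP_b47bfb_co: Q1 for graphs with independence number at most two and connected complement which
are circulant, or vertex-transitive with `2p` or `p^2` vertices.
-/

set_option autoImplicit false

namespace Pool.Agent.Results.MP_b47bfb_co.SymmetricAlphaTwo

/-- `K_k` is a minor of `G`: there are `k` pairwise disjoint vertex sets, each inducing a connected
subgraph, any two of them joined by an edge of `G`. -/
def HasCliqueMinor {V : Type} (G : SimpleGraph V) (k : ℕ) : Prop :=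
  ∃ f : Fin k → Set V,
    (∀ i, (G.induce (f i)).Connected) ∧
    (∀ i j, i ≠ j → Disjoint (f i) (f j)) ∧
    (∀ i j, i ≠ j → ∃ u ∈ f i, ∃ v ∈ f j, G.Adj u v)

/-- `G` has no three distinct pairwise nonadjacent vertices. -/
def AlphaAtMostTwo {V : Type} (G : SimpleGraph V) : Prop :=
  ∀ x y z : V, x ≠ y → y ≠ z → x ≠ z → G.Adj x y ∨ G.Adj y z ∨ G.Adj x z

/-- `G` is a circulant graph: some automorphism of `G` permutes all vertices in a single cycle. -/
def IsCirculant {V : Type} (G : SimpleGraph V) : Prop :=
  ∃ g : G ≃g G, ∀ x y : V, ∃ m : ℕ, (g : V → V)^[m] x = y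

/-- `G` is vertex-transitive. -/
def IsTransitive {V : Type} (G : SimpleGraph V) : Prop :=
  ∀ x y : V, ∃ φ : G ≃g G, φ x = y

/-- Let `G` be a graph with connected complement and independence number at most two, which is a
circulant graph, or vertex-transitive with `2p` or `p^2` vertices for an odd prime `p`. If `G` is
not `k`-colourable then it has a `K_k` minor, and even a `K_{k+1}` minor if the number of vertices
is even. -/
theorem result (V : Type) [Fintype V] (G : SimpleGraph V) (hα : AlphaAtMostTwo G)
    (hconn : Gᶜ.Connected)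
    (hsym : IsCirculant G ∨ (IsTransitive G ∧ ∃ p : ℕ, p.Prime ∧ p ≠ 2 ∧
      (Fintype.card V = 2 * p ∨ Fintype.card V = p ^ 2)))
    (k : ℕ) (hk : ¬ G.Colorable k) :
    HasCliqueMinor G k ∧ (Even (Fintype.card V) → HasCliqueMinor G (k + 1)) := by
  rcases hsym with ⟨g, hg⟩ | ⟨htr, p, hp, hp2, hcard | hcard⟩
  · obtain ⟨x₀⟩ := hconn.nonempty
    exact (TH351.Shift.circulant_all hα g x₀ (hg x₀)).2 hconn k hk
  · have h := TH351.Shift.transitive_two_p hp hp2 hcard htr hα hk
    exact ⟨h.1, fun _ => h.2 hconn⟩
  · refine ⟨TH351.Shift.transitive_sq hp hp2 hcard htr hα hconn hk, fun he => ?_⟩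
    rw [hcard] at he
    exact absurd (hp.odd_of_ne_two hp2).pow (Nat.not_odd_iff_even.mpr he)

end Pool.Agent.Results.MP_b47bfb_co.SymmetricAlphaTwo
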